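import Pool.Agent.Work.MP_aa14e2_an.Main

/-!
# MP_aa14e2_an, Q1 (full answer, affirmative, in a stronger form)

A smooth strictly convex billiard table that has, for every reduced rational `p/q` in `(0,1/3]`, a rotational invariant circle
(all points periodic of type `(p,q)`) is bounded by an ellipse.  The definitions are in
`Pool/Agent/Work/MP_aa14e2_an/GeoTable.lean` (`Bil.Table`, `Bil.Table.Bounce`, `Bil.Table.IsInvariantCircle`,
`Bil.Table.HasRationalCircle`, `Bil.IsEllipse`).
-/

theorem Pool.Agent.Results.MP_aa14e2_an.ThirdCaustics.result (T : Bil.Table)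
    (h : ∀ p q : ℕ, 0 < p → Nat.Coprime p q → 3 * p ≤ q → T.HasRationalCircle p q) :
    Bil.IsEllipse (Set.range T.γ) :=
  Bil.main T h
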